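import Pool.Agent.H15.G.R_seed8.TH760.EN.Defs
import Pool.Agent.H15.G.R_seed8.TH641.NW.Inst
import Pool.Agent.H15.G.R_seed8.TH641.NW.Win
import Pool.Agent.H15.G.R_seed8.TH648.SH.Arb

/-! The end `E`: emptiness for `a` points of multiplicity `2 m + 1` and `c` points of multiplicity `m`,
`4 a + c = n`, `c = 2, 3, 5`, in degree `d`, `√n d < n m + 2 a`. -/

namespace Pool.Agent.TH641.EN

open Finset Pool.Agent.TH176.Nag Pool.Agent.TH603.Sur Pool.Agent.TH603.Cut Pool.Agent.TH641.NW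
open Pool.Agent.TH760.EN

theorem Emp_swap {ι : Type} {w : ι → ℕ} {S : Set (ℤ × ℤ)} (h : Emp w {m : ℤ × ℤ | (m.2, m.1) ∈ S}) :
    Emp w S := by
  refine h.comap 0 1 1 0 0 0 (by norm_num) ?_
  rintro ⟨p, q⟩ hpq
  have e : ((1 * p + 0 * q + 0, 0 * p + 1 * q + 0) : ℤ × ℤ) = (p, q) := by ext <;> simp
  show (1 * p + 0 * q + 0, 0 * p + 1 * q + 0) ∈ S
  rw [e]
  exact hpq

/-- pushing the rows to the left -/
theorem Emp_left {ι : Type} {w : ι → ℕ} {S S' : Set (ℤ × ℤ)}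
    (hS : ∀ (y : ℤ) (B : Finset ℤ), (∀ b ∈ B, ((b, y) : ℤ × ℤ) ∈ S) →
      ∀ k : ℕ, k < B.card → (((k : ℤ), y) : ℤ × ℤ) ∈ S') (h : Emp w S') : Emp w S := by
  apply Emp_swap
  refine Emp_flat0 (S' := {m : ℤ × ℤ | (m.2, m.1) ∈ S'}) (fun a B hB k hk => hS a B hB k hk) ?_
  apply Emp_swap
  exact h

/-- the last step of the real chain -/
theorem Emp_Reg_QQ {c m : ℕ} {α β μ ν : ℝ} (hμν : μ + ν = (c : ℝ) / 4) (hb : β - α < (c : ℝ) * m / 2)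
    (h : HE c) : Emp (fun _ : Fin c => m) (Reg α β μ ν) := by
  refine Emp_left ?_ (h m)
  intro y B hB k hk
  have hne : B.Nonempty := card_pos.1 (by omega)
  obtain ⟨b0, hb0⟩ := hne
  have hy : 0 ≤ y := (hB b0 hb0).1
  have hsub : B ⊆ Finset.Icc ⌈α + μ * y⌉ ⌊β - ν * y⌋ := by
    intro b hb
    obtain ⟨_, h2, h3⟩ := hB b hb
    rw [Finset.mem_Icc]
    exact ⟨Int.ceil_le.2 h2, Int.le_floor.2 h3⟩
  have hcard := card_le_card hsub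
  rw [Int.card_Icc] at hcard
  have h1 : (k : ℤ) ≤ ⌊β - ν * y⌋ - ⌈α + μ * y⌉ := by omega
  have h2 : (k : ℝ) ≤ (⌊β - ν * y⌋ : ℝ) - ⌈α + μ * y⌉ := by exact_mod_cast h1
  have h3 := Int.floor_le (β - ν * (y : ℝ))
  have h4 := Int.le_ceil (α + μ * (y : ℝ))
  have h5 : (μ + ν) * (y : ℝ) = (c : ℝ) / 4 * y := by rw [hμν]
  have h6 : 4 * (k : ℝ) + c * y < 2 * c * m := by linarith
  refine ⟨by simp, hy, ?_⟩
  simp only
  have h7 : ((4 * (k : ℤ) + (c : ℤ) * y : ℤ) : ℝ) < ((2 * (c : ℤ) * (m : ℤ) : ℤ) : ℝ) := by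
    push_cast
    exact h6
  exact_mod_cast h7

/-- **the end `E`** from the small triangle -/
theorem endE_of {c : ℕ} (hc : 1 ≤ c) (h : HE c) : EndE c := by
  intro a n m d hn h36 hlt
  have hnR : (36 : ℝ) ≤ n := by exact_mod_cast h36
  have hcR : (1 : ℝ) ≤ c := by exact_mod_cast hc
  have hnac : (n : ℝ) = 4 * a + c := by rw [hn]; push_cast; ring
  obtain ⟨s, hs⟩ : ∃ s : ℝ, s = √(n : ℝ) := ⟨_, rfl⟩
  have hss : s * s = n := by rw [hs]; exact Real.mul_self_sqrt (by linarith)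
  have hs6 : 6 ≤ s := by rw [hs]; exact Real.le_sqrt_of_sq_le (by norm_num; linarith)
  rw [← hs] at hlt
  obtain ⟨v, τ, α, h4, h5, -, h6⟩ := exists_tau (3 / 2 * s) d
  unfold wt
  refine keyE _ _ d τ h4 h5 ?_
  rw [h6]
  refine Emp_regA 1 v 1 0 (by norm_num) (by norm_num) ?_ ?_ ?_ (α' := α)
    (β' := α + s * d / 2) (μ' := 3 / 2 * s) (ν' := s * (3 / 2 * s - 9) / 6) ?_ ?_ ?_ ?_ ?_
  · push_cast; linarith
  · push_cast; linarith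
  · linarith
  · push_cast; ring
  · push_cast; ring
  · push_cast; ring
  · push_cast; ring
  · refine Pool.Agent.TH648.SH.Emp_absorbs a (fun _ => 2 * m + 1) α (3 / 2 * s) ?_ ?_
    · have : 3 / 2 * s + s * (3 / 2 * s - 9) / 6 = (s * s) / 4 := by ring
      rw [this, hss, hnac]
      linarith
    · refine Emp_Reg_QQ ?_ ?_ h
      · have : 3 / 2 * s - a + s * (3 / 2 * s - 9) / 6 = (s * s) / 4 - a := by ring
        rw [this, hss, hnac]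
        ring
      · have e : (((∑ _j : Fin a, (2 * m + 1) : ℕ)) : ℝ) = a * (2 * m + 1) := by simp
        rw [e]
        rw [hnac] at hlt
        linarith

theorem HE_two : HE 2 := by
  intro m
  apply Emp_swap
  have h := Emp_Cl (fun _ : Fin 2 => m)
  refine h.mono ?_
  rintro ⟨p, q⟩ ⟨h1, h2, h3⟩
  simp only at h1 h2 h3
  refine ⟨h2, h1, ?_⟩
  have h4 : p + 1 + 2 * q ≤ 2 * m := by push_cast at h3; omega
  have h5 : ((p : ℝ)) + 1 + 2 * q ≤ 2 * m := by exact_mod_cast h4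
  simp only [sum_const, card_univ, Fintype.card_fin, smul_eq_mul]
  push_cast
  exact h5

/-- one point on a triangle -/
theorem Emp_one {S : Set (ℤ × ℤ)} {v : ℕ}
    (hS : ∀ (y : ℤ) (B : Finset ℤ), (∀ b ∈ B, ((b, y) : ℤ × ℤ) ∈ S) → ∀ k : ℕ, k < B.card →
      0 ≤ y ∧ y + k < v) : Emp (fun _ : Fin 1 => v) S := by
  have h := Pool.Agent.TH648.SH.Emp_single hS
  exact Emp_emb (fun _ => 0) (fun _ _ _ => rfl) (fun _ => le_rfl) h

theorem fin_of_box {S : Set (ℤ × ℤ)} (N : ℤ) (h : ∀ p ∈ S, 0 ≤ p.1 ∧ 0 ≤ p.2 ∧ p.1 ≤ N ∧ p.2 ≤ N) :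
    S.Finite := by
  apply Set.Finite.subset (Set.finite_Icc ((0, 0) : ℤ × ℤ) (N, N))
  intro p hp
  obtain ⟨h1, h2, h3, h4⟩ := h p hp
  rw [Set.mem_Icc, Prod.le_def, Prod.le_def]
  exact ⟨⟨h1, h2⟩, h3, h4⟩

theorem card_le_of_bd {B : Finset ℤ} {k : ℕ} (hk : k < B.card) : ∃ a ∈ B, ∃ b ∈ B, (k : ℤ) ≤ b - a := by
  have hne : B.Nonempty := card_pos.1 (by omega)
  refine ⟨B.min' hne, B.min'_mem hne, B.max' hne, B.max'_mem hne, ?_⟩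
  have hsub : B ⊆ Finset.Icc (B.min' hne) (B.max' hne) := by
    intro b hb
    rw [Finset.mem_Icc]
    exact ⟨B.min'_le b hb, B.le_max' b hb⟩
  have h1 := card_le_card hsub
  rw [Int.card_Icc] at h1
  omega

/-- two points on the right part -/
theorem Emp_R (m : ℕ) : Emp (fun _ : Fin 2 => m)
    {p : ℤ × ℤ | (m : ℤ) ≤ p.1 ∧ 0 ≤ p.2 ∧ p.2 ≤ p.1 ∧ p.2 + 3 * p.1 < 6 * m} := by
  refine Emp_flat (S' := {p : ℤ × ℤ | 0 ≤ p.2 ∧ p.2 ≤ p.1 - m ∧ p.1 + p.2 < 3 * m}) 1 1 1 0 (by norm_num) ?_ ?_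
  · rintro ⟨c, k0⟩ T k ⟨h1, h2, h3, h4⟩ ⟨h5, h6, h7, h8⟩ hk
    simp only at h1 h2 h3 h4 h5 h6 h7 h8
    refine ⟨by simp, ?_, ?_⟩
    · simp only; omega
    · simp only; omega
  · have h := Emp_Cl (fun _ : Fin 2 => m)
    refine h.comap 1 (-1) 0 1 (-(m : ℤ)) 0 (by norm_num) ?_
    rintro ⟨e, k⟩ ⟨h1, h2, h3⟩
    simp only at h1 h2 h3
    refine ⟨?_, ?_, ?_⟩
    · simp only; omega
    · simp only; omega
    · have h4 : (1 * e + -1 * k + -(m : ℤ)) + 1 + 2 * (0 * e + 1 * k + 0) ≤ 2 * m := by omega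
      have h5 : (((1 * e + -1 * k + -(m : ℤ)) : ℤ) : ℝ) + 1 + 2 * ((0 * e + 1 * k + 0 : ℤ) : ℝ) ≤ 2 * m := by
        exact_mod_cast h4
      simp only [sum_const, card_univ, Fintype.card_fin, smul_eq_mul]
      push_cast at h5 ⊢
      linarith

/-- reindexing -/
theorem Emp_fin_add {a b m : ℕ} {S : Set (ℤ × ℤ)}
    (h : Emp (Sum.elim (fun _ : Fin a => m) (fun _ : Fin b => m)) S) : Emp (fun _ : Fin (a + b) => m) S := by
  refine Emp_emb finSumFinEquiv finSumFinEquiv.injective ?_ h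
  rintro (i | i) <;> simp

theorem HE_three : HE 3 := by
  intro m
  refine Emp_flat (S' := {p : ℤ × ℤ | 0 ≤ p.2 ∧ p.2 ≤ p.1 ∧ p.2 + 3 * p.1 < 6 * m}) 1 1 1 0 (by norm_num) ?_ ?_
  · rintro ⟨a, b⟩ T k ⟨h1, h2, h3⟩ ⟨h5, h6, h7⟩ hk
    simp only at h1 h2 h3 h5 h6 h7
    push_cast at h3 h7
    refine ⟨by simp, ?_, ?_⟩
    · simp only; omega
    · simp only; omega
  · have hL : Emp (fun _ : Fin 1 => m) {p : ℤ × ℤ | 0 ≤ p.2 ∧ p.2 ≤ p.1 ∧ p.1 < m} := by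
      apply Emp_one
      intro y B hB k hk
      obtain ⟨a, ha, b, hb, hab⟩ := card_le_of_bd hk
      obtain ⟨h1, h2, h3⟩ := hB a ha
      obtain ⟨h4, h5, h6⟩ := hB b hb
      simp only at h1 h2 h3 h4 h5 h6
      omega
    have key := Pool.Agent.TH698.NagT3.Emp_cut
      (fin_of_box (m : ℤ) (by rintro ⟨p, q⟩ ⟨h1, h2, h3⟩; simp only at h1 h2 h3 ⊢; omega))
      (fin_of_box (2 * (m : ℤ)) (by rintro ⟨p, q⟩ ⟨h1, h2, h3, h4⟩; simp only at h1 h2 h3 h4 ⊢; omega))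
      (by rintro ⟨p, q⟩ ⟨h1, h2, h3⟩; simp only at h1 h2 h3 ⊢; omega)
      (by rintro ⟨p, q⟩ ⟨h1, h2, h3, h4⟩; simp only at h1 h2 h3 h4 ⊢; omega) 1 0
      (by
        rintro ⟨p, q⟩ ⟨h1, h2, h3⟩ ⟨p', q'⟩ ⟨h4, h5, h6, h7⟩
        simp only at h1 h2 h3 h4 h5 h6 h7 ⊢
        omega) hL (Emp_R m)
    refine (Emp_fin_add key).mono ?_
    rintro ⟨p, q⟩ ⟨h1, h2, h3⟩
    simp only at h1 h2 h3
    rcases lt_or_ge p (m : ℤ) with h4 | h4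
    · exact Or.inl ⟨h1, h2, h4⟩
    · exact Or.inr ⟨h4, h1, h2, h3⟩

theorem HE_five : HE 5 := by
  intro m
  have hR : Emp (fun _ : Fin 3 => m) {p : ℤ × ℤ | 0 ≤ p.1 ∧ 0 ≤ p.2 ∧ 2 * (m : ℤ) ≤ 2 * p.1 + p.2 ∧
      4 * p.1 + 5 * p.2 < 10 * m} := by
    refine Emp_left ?_ (HE_three m)
    intro y B hB k hk
    obtain ⟨a, ha, b, hb, hab⟩ := card_le_of_bd hk
    obtain ⟨h1, h2, h3, h4⟩ := hB a ha
    obtain ⟨h5, h6, h7, h8⟩ := hB b hb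
    simp only at h1 h2 h3 h4 h5 h6 h7 h8
    refine ⟨by simp, h2, ?_⟩
    simp only
    push_cast
    omega
  have hL : Emp (fun _ : Fin 2 => m) {p : ℤ × ℤ | 0 ≤ p.1 ∧ 0 ≤ p.2 ∧ 2 * p.1 + p.2 < 2 * m} := by
    refine (HE_two m).mono ?_
    rintro ⟨p, q⟩ ⟨h1, h2, h3⟩
    simp only at h1 h2 h3
    refine ⟨h1, h2, ?_⟩
    simp only
    push_cast
    omega
  have key := Pool.Agent.TH698.NagT3.Emp_cut
    (fin_of_box (2 * (m : ℤ)) (by rintro ⟨p, q⟩ ⟨h1, h2, h3⟩; simp only at h1 h2 h3 ⊢; omega))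
    (fin_of_box (10 * (m : ℤ)) (by rintro ⟨p, q⟩ ⟨h1, h2, h3, h4⟩; simp only at h1 h2 h3 h4 ⊢; omega))
    (by rintro ⟨p, q⟩ ⟨h1, h2, h3⟩; exact ⟨h1, h2⟩)
    (by rintro ⟨p, q⟩ ⟨h1, h2, h3, h4⟩; exact ⟨h1, h2⟩) 2 1
    (by
      rintro ⟨p, q⟩ ⟨h1, h2, h3⟩ ⟨p', q'⟩ ⟨h4, h5, h6, h7⟩
      simp only at h1 h2 h3 h4 h5 h6 h7 ⊢
      omega) hL hR
  refine (Emp_fin_add key).mono ?_
  rintro ⟨p, q⟩ ⟨h1, h2, h3⟩
  simp only at h1 h2 h3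
  push_cast at h3
  rcases lt_or_ge (2 * p + q) (2 * (m : ℤ)) with h4 | h4
  · exact Or.inl ⟨h1, h2, h4⟩
  · refine Or.inr ⟨h1, h2, h4, ?_⟩
    simp only
    omega

theorem endE_two : EndE 2 := endE_of (by norm_num) HE_two
theorem endE_three : EndE 3 := endE_of (by norm_num) HE_three
theorem endE_five : EndE 5 := endE_of (by norm_num) HE_five

end Pool.Agent.TH641.EN
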